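import Pool.Agent.N818.SN.Stm

/-!
# Project SN, part TR: the classes of the rational points

The curve `y² = x³ - 2 a x² + (a² - 4 n²) x = x (x - (a + 2 n)) (x - (a - 2 n))` has full rational
two-torsion. If the number of its rational points is `4 k` with `k` odd, then `k P` is killed by two
for every rational point `P`, and the first coordinates of `k P` and `P` have the same class modulo
squares.
-/

set_option autoImplicit false

namespace Pool.Agent.N457.SN.TR

open WeierstrassCurve Pool.Agent.Y668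

lemma ns_of {A C x y : ℚ} (hC : C ≠ 0) (hD : A ^ 2 - 4 * C ≠ 0)
    (h : y ^ 2 = x ^ 3 + A * x ^ 2 + C * x) : (Wt A C).toAffine.Nonsingular x y := by
  rw [← Affine.equation_iff_nonsingular_of_Δ_ne_zero]
  · exact Wt_eqn.mpr h
  · have h1 : (Wt A C).Δ = 16 * C ^ 2 * (A ^ 2 - 4 * C) := by
      simp only [Wt, WeierstrassCurve.Δ, WeierstrassCurve.b₂, WeierstrassCurve.b₄,
        WeierstrassCurve.b₆, WeierstrassCurve.b₈]
      ring
    change (Wt A C).Δ ≠ 0
    rw [h1]
    exact mul_ne_zero (mul_ne_zero (by norm_num) (pow_ne_zero 2 hC)) hD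

variable {A C : ℚ}

/-- the point `(r, 0)` -/
noncomputable def P2 (hC : C ≠ 0) (hD : A ^ 2 - 4 * C ≠ 0) (r : ℚ)
    (h : (0 : ℚ) ^ 2 = r ^ 3 + A * r ^ 2 + C * r) : (Wt A C).toAffine.Point :=
  Affine.Point.some r 0 (ns_of hC hD h)

lemma P2_add (hC : C ≠ 0) (hD : A ^ 2 - 4 * C ≠ 0) (r : ℚ)
    (h : (0 : ℚ) ^ 2 = r ^ 3 + A * r ^ 2 + C * r) : P2 hC hD r h + P2 hC hD r h = 0 := by
  have h1 : P2 hC hD r h = -P2 hC hD r h := by
    unfold P2
    rw [Affine.Point.neg_some]
    congr 1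
    simp [Affine.negY, Wt]
  nth_rewrite 2 [h1]
  exact add_neg_cancel _

/-- the points killed by two -/
lemma two_tors {Q : (Wt A C).toAffine.Point} (h : Q + Q = 0) :
    Q = 0 ∨ ∃ x h', Q = .some x 0 h' ∧ x * (x ^ 2 + A * x + C) = 0 := by
  cases Q with
  | zero => left; rfl
  | some x y hn =>
    right
    have h1 : (Affine.Point.some x y hn : (Wt A C).toAffine.Point) =
        -Affine.Point.some x y hn := eq_neg_of_add_eq_zero_left h
    rw [Affine.Point.neg_some] at h1
    have h2 : y = (Wt A C).toAffine.negY x y := by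
      simpa using h1
    have h3 : y = 0 := by
      simp only [Affine.negY, Wt] at h2
      linarith
    subst h3
    have h4 := Wt_eqn.mp hn.1
    exact ⟨x, hn, rfl, by linear_combination -h4⟩

/-- the class of a multiple -/
lemma al_nsmul (P : (Wt A C).toAffine.Point) (hC : C ≠ 0) (m : ℕ) :
    IsSquare (al A C (m • P) * (al A C P) ^ m) := by
  induction m with
  | zero =>
    rw [zero_nsmul, al_zero, pow_zero, one_mul]
    exact ⟨1, by norm_num⟩
  | succ m ih =>
    rw [succ_nsmul]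
    have h1 := al_add (two_ne_zero (α := ℚ)) (m • P) P
    have h0 : al A C (m • P) ≠ 0 := al_ne hC _
    obtain ⟨u, hu⟩ := ih
    obtain ⟨v, hv⟩ := h1
    have h2 : al A C (m • P + P) * al A C P ^ (m + 1) =
        (u * v / al A C (m • P)) * (u * v / al A C (m • P)) := by
      field_simp
      rw [pow_succ]
      linear_combination (al A C (m • P + P) * al A C (m • P) * al A C P) * hu + (u * u) * hv
    exact ⟨_, h2⟩

lemma class_odd {P : (Wt A C).toAffine.Point} (hC : C ≠ 0) {k : ℕ} (hk : Odd k) :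
    IsSquare (al A C (k • P) * al A C P) := by
  obtain ⟨j, rfl⟩ := hk
  have h := al_nsmul P hC (2 * j + 1)
  have h0 : al A C P ≠ 0 := al_ne hC _
  obtain ⟨u, hu⟩ := h
  refine ⟨u / al A C P ^ j, ?_⟩
  have h1 : al A C P ^ j ≠ 0 := pow_ne_zero _ h0
  have h2 : al A C P ^ (2 * j + 1) = al A C P ^ j * al A C P ^ j * al A C P := by ring
  rw [h2] at hu
  field_simp
  linear_combination hu

theorem card_ker (r s : ℚ) (hr : r ≠ 0) (hs : s ≠ 0) (hrs : r ≠ s) (hA : A = -(r + s))
    (hC' : C = r * s) (f : (Wt A C).toAffine.Point →+ (Wt A C).toAffine.Point)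
    (hf : ∀ Q, f Q = Q + Q) : Nat.card f.ker = 4 := by
  have hC : C ≠ 0 := by rw [hC']; exact mul_ne_zero hr hs
  have hD : A ^ 2 - 4 * C ≠ 0 := by
    have : A ^ 2 - 4 * C = (r - s) ^ 2 := by rw [hA, hC']; ring
    rw [this]
    exact pow_ne_zero 2 (sub_ne_zero.2 hrs)
  have e0 : (0 : ℚ) ^ 2 = (0 : ℚ) ^ 3 + A * 0 ^ 2 + C * 0 := by ring
  have e1 : (0 : ℚ) ^ 2 = r ^ 3 + A * r ^ 2 + C * r := by rw [hA, hC']; ring
  have e2 : (0 : ℚ) ^ 2 = s ^ 3 + A * s ^ 2 + C * s := by rw [hA, hC']; ring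
  set T0 := P2 hC hD 0 e0 with hT0
  set T1 := P2 hC hD r e1 with hT1
  set T2 := P2 hC hD s e2 with hT2
  have hker : (f.ker : Set (Wt A C).toAffine.Point) = {0, T0, T1, T2} := by
    ext Q
    simp only [SetLike.mem_coe, AddMonoidHom.mem_ker, hf, Set.mem_insert_iff,
      Set.mem_singleton_iff]
    constructor
    · intro h
      rcases two_tors h with h1 | ⟨x, h', rfl, h2⟩
      · exact Or.inl h1
      · right
        have h5 : x * ((x - r) * (x - s)) = 0 := by
          rw [hA, hC'] at h2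
          linear_combination h2
        rcases mul_eq_zero.1 h5 with h6 | h6
        · left; subst h6; rfl
        · right
          rcases mul_eq_zero.1 h6 with h7 | h7
          · left
            have : x = r := by linear_combination h7
            subst this; rfl
          · right
            have : x = s := by linear_combination h7
            subst this; rfl
    · rintro (rfl | rfl | rfl | rfl)
      · exact add_zero 0
      · exact P2_add _ _ _ _
      · exact P2_add _ _ _ _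
      · exact P2_add _ _ _ _
  have hinj : ∀ (r r' : ℚ) (h h'), P2 hC hD r h = P2 hC hD r' h' → r = r' := by
    intro r r' h h' h1
    unfold P2 at h1
    injection h1
  have hne0 : ∀ (r : ℚ) (h), P2 hC hD r h ≠ 0 := fun r h => Affine.Point.some_ne_zero _
  have e : Nat.card f.ker = Nat.card (f.ker : Set (Wt A C).toAffine.Point) := rfl
  rw [e, hker, Nat.card_coe_set_eq, Set.ncard_insert_of_notMem, Set.ncard_insert_of_notMem,
    Set.ncard_pair]
  · intro h
    exact hrs (hinj _ _ _ _ h)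
  · rintro (h | h)
    · exact hr (hinj _ _ _ _ h).symm
    · exact hs (hinj _ _ _ _ h).symm
  · rintro (h | h | h)
    · exact hne0 _ _ h.symm
    · exact hne0 _ _ h.symm
    · exact hne0 _ _ h.symm

/-- the class of a point, if the number of points is `4 k` with `k` odd -/
theorem class_of (r s : ℚ) (hr : r ≠ 0) (hs : s ≠ 0) (hrs : r ≠ s) (hA : A = -(r + s))
    (hC' : C = r * s) {k : ℕ} (hk : Odd k) (hcard : Nat.card (Wt A C).toAffine.Point = 4 * k)
    (P : (Wt A C).toAffine.Point) :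
    ∃ c : ℚ, IsSquare (c * al A C P) ∧ (c = 1 ∨ c = C ∨ c = r ∨ c = s) := by
  classical
  have hC : C ≠ 0 := by rw [hC']; exact mul_ne_zero hr hs
  let f : (Wt A C).toAffine.Point →+ (Wt A C).toAffine.Point :=
    AddMonoidHom.id _ + AddMonoidHom.id _
  have hfa : ∀ Q, f Q = Q + Q := fun Q => rfl
  have h4 := card_ker r s hr hs hrs hA hC' f hfa
  have h5 := AddSubgroup.card_mul_index f.ker
  rw [h4, hcard] at h5
  have h6 : f.ker.index = k := by omega
  have h7 : k • P ∈ f.ker := by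
    rw [← h6]
    exact AddSubgroup.nsmul_index_mem f.ker P
  have h8 := class_odd (P := P) hC hk
  have h9 : k • P + k • P = 0 := by
    have := AddMonoidHom.mem_ker.1 h7
    rwa [hfa] at this
  refine ⟨_, h8, ?_⟩
  rcases two_tors h9 with h1 | ⟨x, h', h1, h2⟩
  · left
    rw [h1]
    exact al_zero _ _
  · rw [h1, al_some]
    by_cases hx : x = 0
    · rw [if_pos hx]
      exact Or.inr (Or.inl rfl)
    · rw [if_neg hx]
      have h5 : (x - r) * (x - s) = 0 := by
        have h3 : x ^ 2 + A * x + C = 0 := (mul_eq_zero.1 h2).resolve_left hx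
        rw [hA, hC'] at h3
        linear_combination h3
      rcases mul_eq_zero.1 h5 with h7 | h7
      · exact Or.inr (Or.inr (Or.inl (by linear_combination h7)))
      · exact Or.inr (Or.inr (Or.inr (by linear_combination h7)))

theorem t_TR : Pool.Agent.N818.SN.S_TR := by
  intro a n d hn hc hd ⟨k, hk, hcard⟩ ⟨X, Y, ρ, hX, hY, hXd⟩
  have hnq : (n : ℚ) ≠ 0 := by exact_mod_cast hn
  have hcq : (a : ℚ) ^ 2 - 4 * (n : ℚ) ^ 2 ≠ 0 := by exact_mod_cast hc
  have hprod : ((a : ℚ) + 2 * n) * ((a : ℚ) - 2 * n) = (a : ℚ) ^ 2 - 4 * (n : ℚ) ^ 2 := by ring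
  have hr : (a : ℚ) + 2 * n ≠ 0 := fun h => hcq (by rw [← hprod, h, zero_mul])
  have hs : (a : ℚ) - 2 * n ≠ 0 := fun h => hcq (by rw [← hprod, h, mul_zero])
  have hrs : (a : ℚ) + 2 * n ≠ (a : ℚ) - 2 * n := fun h => hnq (by linarith)
  have hA : (((-2 * a : ℤ) : ℤ) : ℚ) = -(((a : ℚ) + 2 * n) + ((a : ℚ) - 2 * n)) := by
    push_cast; ring
  have hC : (((a ^ 2 - 4 * n ^ 2 : ℤ) : ℤ) : ℚ) = ((a : ℚ) + 2 * n) * ((a : ℚ) - 2 * n) := by
    push_cast; ring
  have hC0 : (((a ^ 2 - 4 * n ^ 2 : ℤ) : ℤ) : ℚ) ≠ 0 := by rw [hC]; exact mul_ne_zero hr hs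
  have hD0 : (((-2 * a : ℤ) : ℤ) : ℚ) ^ 2 - 4 * (((a ^ 2 - 4 * n ^ 2 : ℤ) : ℤ) : ℚ) ≠ 0 := by
    have : (((-2 * a : ℤ) : ℤ) : ℚ) ^ 2 - 4 * (((a ^ 2 - 4 * n ^ 2 : ℤ) : ℤ) : ℚ) =
        (4 * (n : ℚ)) ^ 2 := by push_cast; ring
    rw [this]
    exact pow_ne_zero 2 (mul_ne_zero (by norm_num) hnq)
  have hE : Y ^ 2 = X ^ 3 + (((-2 * a : ℤ) : ℤ) : ℚ) * X ^ 2 +
      (((a ^ 2 - 4 * n ^ 2 : ℤ) : ℤ) : ℚ) * X := by
    rw [hY]; push_cast; ring
  obtain ⟨c, hc1, hc2⟩ := class_of _ _ hr hs hrs hA hC hk hcard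
    (Affine.Point.some X Y (ns_of hC0 hD0 hE))
  rw [al_some, if_neg hX, hXd] at hc1
  have hρ : ρ ≠ 0 := by
    rintro rfl
    exact hX (by rw [hXd]; ring)
  have hc3 : IsSquare ((d : ℚ) * c) := by
    obtain ⟨u, hu⟩ := hc1
    refine ⟨u / ρ, ?_⟩
    field_simp
    linear_combination hu
  rcases hc2 with rfl | rfl | rfl | rfl
  · left
    simpa using hc3
  · right; left
    push_cast at hc3
    exact hc3
  · right; right; left
    exact hc3
  · right; right; right
    exact hc3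

end Pool.Agent.N457.SN.TR
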